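import Pool.Agent.Q71.DN.All

set_option autoImplicit false

/-!
# The star discrepancy of every digital net

`F` is any finite field, `q` its number of elements. In every dimension `d ≥ 3` the star
discrepancy of every digital `(t,m,d)`-net over `F` is at least `c (m/(q (t+1)²))^(d-1) / q^m`, and
the star discrepancy of every digital set of `q^m` points, without any condition on the generating
matrices, is at least `c (m/(q (1 + log m)²))^(d-1) / q^m`; `c > 0` depends only on `d`. The digits
are mapped to `{0, …, q-1}` by arbitrary bijections which may depend on the coordinate and on the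
position (so all digital shifts are included), and the digits after the `m`-th one are arbitrary
(each point may be moved inside its cell of side `q^(-m)`).
-/

namespace Pool.Agent.Results.MP_173de9_an.DigitalNets

open Finset MeasureTheory

/-- The `i`-th digit in base `q` (`i = 0` is the first digit after the point) of `y ∈ [0,1)`. -/
noncomputable def digitAt (q i : ℕ) (y : ℝ) : ℕ := ⌊(q : ℝ) ^ (i + 1) * y⌋₊ % q

/-- The local discrepancy `∏ x_j - (1/N) Σ_μ χ_{[0,x]}(ξ^μ)` of `N` points `ξ` at `x`. -/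
noncomputable def localDisc {N d : ℕ} (ξ : Fin N → Fin d → ℝ) (x : Fin d → ℝ) : ℝ :=
  ∏ j, x j - (1 / (N : ℝ)) * ∑ μ : Fin N, (Set.Icc (0 : Fin d → ℝ) x).indicator (fun _ => (1 : ℝ)) (ξ μ)

/-- `D(ξ,N,d)_∞`: the `L_∞` norm of the local discrepancy over `[0,1]^d`. -/
noncomputable def starDisc {N d : ℕ} (ξ : Fin N → Fin d → ℝ) : ENNReal :=
  eLpNorm (localDisc ξ) ⊤ (volume.restrict (Set.Icc (0 : Fin d → ℝ) 1))

/-- `ξ` is a digital set of `q^m` points of `[0,1)^d`, `q = |F|`, with the generating matrices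
`C j` and the digit bijections `ψ j i : F ≃ {0, …, q-1}`: for some numbering of the points by the
vectors `v ∈ F^m` the first `m` digits of the coordinate `j` of the point of `v` are the images
under `ψ j 0, ψ j 1, …` of the entries of the vector `C j v`. The later digits are arbitrary. -/
def IsDigital {F : Type} [Field F] [Fintype F] {m d : ℕ} (C : Fin d → Matrix (Fin m) (Fin m) F)
    (ψ : Fin d → Fin m → (F ≃ Fin (Fintype.card F)))
    (ξ : Fin (Fintype.card F ^ m) → Fin d → ℝ) : Prop :=
  ∃ e : Fin (Fintype.card F ^ m) ≃ (Fin m → F), ∀ μ j, 0 ≤ ξ μ j ∧ ξ μ j < 1 ∧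
    ∀ i : Fin m, digitAt (Fintype.card F) i (ξ μ j) = (ψ j i ((C j).mulVec (e μ) i) : ℕ)

open Classical in
/-- `(t,m,d)`-nets in base `b`: every elementary interval `∏ [v_i b^(-k_i), (v_i+1) b^(-k_i))` of
volume `b^(t-m)` contains exactly `b^t` of the `b^m` points. -/
def IsNet (b t m : ℕ) {d : ℕ} (ξ : Fin (b ^ m) → Fin d → ℝ) : Prop :=
  ∀ k v : Fin d → ℕ, ∑ i, k i + t = m → (∀ i, v i < b ^ k i) →
    (univ.filter (fun μ => ∀ i, (v i : ℝ) / (b:ℝ) ^ k i ≤ ξ μ i ∧
      ξ μ i < ((v i : ℝ) + 1) / (b:ℝ) ^ k i)).card = b ^ t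

/-- **Theorem.** Lower bounds for the star discrepancy of all digital nets, and of all digital sets
without any condition on the generating matrices, in dimension `d ≥ 3`. -/
theorem result (d : ℕ) (hd : 3 ≤ d) :
    ∃ c : ℝ, 0 < c ∧ ∀ (F : Type) [Field F] [Fintype F] (m : ℕ)
      (C : Fin d → Matrix (Fin m) (Fin m) F) (ψ : Fin d → Fin m → (F ≃ Fin (Fintype.card F)))
      (ξ : Fin (Fintype.card F ^ m) → Fin d → ℝ), IsDigital C ψ ξ →
      (∀ t : ℕ, IsNet (Fintype.card F) t m ξ →
        ENNReal.ofReal (c * ((m : ℝ) / ((Fintype.card F : ℝ) * ((t : ℝ) + 1) ^ 2)) ^ (d - 1) /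
          ((Fintype.card F : ℝ) ^ m)) ≤ starDisc ξ) ∧
      ENNReal.ofReal (c * ((m : ℝ) / ((Fintype.card F : ℝ) * (1 + Real.log m) ^ 2)) ^ (d - 1) /
          ((Fintype.card F : ℝ) ^ m)) ≤ starDisc ξ :=
  Pool.Agent.Q71.DN.allNets Pool.Agent.Q71.DN.kk_thm Pool.Agent.Q71.DN.star_thm
    Pool.Agent.Q71.DN.main_thm d hd

end Pool.Agent.Results.MP_173de9_an.DigitalNets
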