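import Pool.Agent.Q88.HS.Pts

/-!
# The star discrepancy of all scrambled Halton-Hammersley point sets

Take pairwise coprime mixed radix systems `P i`, `i < s`, with ratios at most `R` (for instance
`P i k = b i ^ k` with pairwise coprime bases `b i ≤ R`). A scrambled Halton-Hammersley set of `N`
points in dimension `d = s + 1` has the first coordinates `n / N`, and the `i`-th digit expansion of
the `n`-th point is obtained from the radical inverse of `n` by any nested scrambling (Owen): for
every `k` the first `k` digits are in one-to-one correspondence with the residue class of `n` modulo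
`P i k`. This includes all digital shifts, all digit permutations (depending on the place and on the
preceding digits), all blocks of consecutive terms, and every point may be moved inside its cell.

The star discrepancy of every such set is at least `c (log N)^(d-1) / N`, where `c > 0` depends only
on `d` and `R`. So no scrambling improves the order of the classical upper bound. The same holds in
every box: a box `B` contains a box for which the difference between the number of the points and the
expected number is at least `c (log (N |B|))^(d-1)`, as soon as `N |B|` is at least a constant.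

Method. Choose the corner of the box such that its `k`-th digit in the `i`-th system is the largest
one if `k` lies in a set `K i` of places, and `0` otherwise, and let `n*` be the index of the point
whose first digits are those of the corner. Then for `r > 0` the point with the index `n* + r` lies
in the box if and only if for each `i` the largest `k` such that `P i k` divides `r` is in `K i`:
the scrambling has disappeared. If the sets `K i` are sparse and all their places have the same
quotient `P i (k + 1) / P i k` and the same class of `P i k` modulo an integer `L` prime to all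
of them, then for the interval `r ≤ g B / L`, where `B` is the product of large `P i T`, all the
counting errors have the same sign and each is at least a constant.
-/

set_option autoImplicit false

namespace Pool.Agent.Results.MP_173de9_an.HammersleyScramblings

open Finset MeasureTheory Pool.Agent.Q88.HS

/-- **The star discrepancy of all scrambled Halton-Hammersley sets**, and its local form. -/
theorem result (s R : ℕ) (hs : 1 ≤ s) : ∃ c C₀ : ℝ, 0 < c ∧ 0 < C₀ ∧
    (∀ (P : Fin s → ℕ → ℕ), (∀ i, IsRadix R (P i)) →
      (∀ i j, i ≠ j → ∀ k l, Nat.Coprime (P i k) (P j l)) →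
      ∀ (N : ℕ) (ξ : Fin N → Fin (s + 1) → ℝ), IsScrambledHammersley P ξ →
        (2 ≤ N → ENNReal.ofReal (c * Real.log N ^ s / N) ≤ starDisc ξ) ∧
        ∀ α β : Fin (s + 1) → ℝ, (∀ j, 0 ≤ α j ∧ α j < β j ∧ β j ≤ 1) →
          C₀ ≤ N * ∏ j, (β j - α j) →
          ∃ X Y : Fin (s + 1) → ℝ, (∀ j, α j ≤ X j ∧ X j ≤ Y j ∧ Y j ≤ β j) ∧
            c * Real.log (N * ∏ j, (β j - α j)) ^ s ≤
              |(Nat.card {n : Fin N // ∀ j, X j ≤ ξ n j ∧ ξ n j < Y j} : ℝ) -
                N * ∏ j, (Y j - X j)|) ∧
    ∀ b : Fin s → ℕ, (∀ i, 2 ≤ b i) → ∀ N : ℕ,
      IsScrambledHammersley (fun i k => b i ^ k)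
        (fun n : Fin N => (Fin.cons ((n : ℝ) / N) fun i => radInv (b i) n : Fin (s + 1) → ℝ)) := by
  have hham : ∀ b : Fin s → ℕ, (∀ i, 2 ≤ b i) → ∀ N : ℕ,
      IsScrambledHammersley (fun i k => b i ^ k)
        (fun n : Fin N => (Fin.cons ((n : ℝ) / N) fun i => radInv (b i) n : Fin (s + 1) → ℝ)) := by
    intro b hb N
    refine ⟨fun n => ?_, fun n i => ?_, fun i k _ n n' => ?_⟩
    · rw [Fin.cons_zero]
      have hN : (0 : ℝ) < N := by
        have := n.2
        exact_mod_cast (by omega : 0 < N)
      exact ⟨le_rfl, div_lt_div_of_pos_right (by linarith) hN⟩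
    · rw [Fin.cons_succ]
      exact ⟨radInv_nonneg _ _, radInv_lt (hb i) n⟩
    · rw [Fin.cons_succ, Fin.cons_succ]
      exact digits_radInv (hb i) k n n'
  by_cases hR : 2 ≤ R
  · obtain ⟨c₁, hc₁, h1⟩ := star_pts s R hs hR
    obtain ⟨c₂, C₀, hc₂, hC₀, h2⟩ := local_pts s R hs hR
    refine ⟨min c₁ c₂, max C₀ 1, lt_min hc₁ hc₂, by positivity, ?_, hham⟩
    intro P hP hco N ξ hξ
    refine ⟨fun hN => ?_, fun α β hαβ hC => ?_⟩
    · refine le_trans (ENNReal.ofReal_le_ofReal ?_) (h1 P hP hco N ξ hξ hN)
      have hlog : 0 ≤ Real.log N := Real.log_nonneg (by exact_mod_cast (by omega : 1 ≤ N))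
      have := min_le_left c₁ c₂
      gcongr
    · obtain ⟨X, Y, hXY, h3⟩ := h2 P hP hco N ξ hξ α β hαβ ((le_max_left _ _).trans hC)
      refine ⟨X, Y, hXY, le_trans ?_ h3⟩
      have hlog : 0 ≤ Real.log (N * ∏ j, (β j - α j)) :=
        Real.log_nonneg ((le_max_right C₀ 1).trans hC)
      have := min_le_right c₁ c₂
      gcongr
  · refine ⟨1, 1, one_pos, one_pos, fun P hP => ?_, hham⟩
    exact absurd (hP ⟨0, hs⟩).two_le hR

end Pool.Agent.Results.MP_173de9_an.HammersleyScramblings
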