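import Pool.Agent.Q84.LX4

set_option autoImplicit false

/-!
# Large discrepancy in every box, modulo functions of fewer variables

For every `d ≥ 1` there is `c > 0` such that the following holds for all point sets `ξ_1, ..., ξ_N`
in `ℝ^d` with real weights `w_i`, all `M > 0` and all boxes `B = [a, b]` with `M |B| ≥ 2`, provided
that the weights of the points inside `B` are at least one (for instance `w_i = 1`, `M = N`): for
all measurable functions `φ_1, ..., φ_d`, where `φ_s` does not depend on `x_s`, the inequality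
`|∑_{ξ_i ≤ x} w_i - M x_1 ⋯ x_d - φ_1(x) - ⋯ - φ_d(x)| ≥ c (log (M |B|))^((d-1)/2)`
holds on a subset of `B` of measure at least `c |B|`.
-/

namespace Pool.Agent.Results.MP_173de9_an.LocalBoxes

open MeasureTheory

theorem result (d : ℕ) (hd : 1 ≤ d) : ∃ c : ℝ, 0 < c ∧
    ∀ (N : ℕ) (ξ : Fin N → Fin d → ℝ) (w : Fin N → ℝ) (M : ℝ)
      (φ : Fin d → (Fin d → ℝ) → ℝ) (a b : Fin d → ℝ), 0 < M → (∀ s, a s < b s) →
      (∀ s, Measurable (φ s)) →
      (∀ s (x y : Fin d → ℝ), (∀ t, t ≠ s → x t = y t) → φ s x = φ s y) →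
      (∀ i, (∀ s, a s < ξ i s ∧ ξ i s ≤ b s) → 1 ≤ w i) →
      2 ≤ M * ∏ s, (b s - a s) →
      ENNReal.ofReal (c * ∏ s, (b s - a s)) ≤ volume {x : Fin d → ℝ | x ∈ Set.Icc a b ∧
        c * (Real.log (M * ∏ s, (b s - a s))) ^ (((d : ℝ) - 1) / 2) ≤
          |∑ i, (if ∀ s, ξ i s ≤ x s then w i else 0) - M * ∏ s, x s - ∑ s, φ s x|} := by
  classical
  obtain ⟨c, hc, H⟩ := Pool.Agent.Q84.LX.local_boxes d hd
  refine ⟨c, hc, ?_⟩
  intro N ξ w M φ a b hM hab hφm hφ hw hMV
  have h1 := H (Fin N) Finset.univ w ξ M φ a (fun s => b s - a s) hM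
    (fun s => sub_pos.2 (hab s)) hφm hφ (by
      intro j _ hj
      apply hw j
      intro s
      have := hj s
      constructor
      · exact this.1
      · have h2 := this.2
        linarith) hMV
  have h2 : a + (fun s => b s - a s) = b := by
    funext s
    simp
  rw [h2] at h1
  exact h1

end Pool.Agent.Results.MP_173de9_an.LocalBoxes
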