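import Pool.Agent.Q71.OS.All

set_option autoImplicit false

/-!
# The star discrepancy of Owen scrambled nets

For every `(t,m,d)`-net in base `b` (digital or not), all but a proportion `exp(-b^(c' m))` of its
nested scramblings (independent uniform permutations of the digits at each node, Owen 1995) have
star discrepancy at least `c (m/(t+1))^(d-1) / b^m`; `c, c' > 0` depend only on `d ≥ 2`. The digits
after the `m`-th one are arbitrary.
-/

namespace Pool.Agent.Results.MP_173de9_an.ScrambledNets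

open Finset MeasureTheory

/-- The local discrepancy `∏ x_j - (1/N) Σ_μ χ_{[0,x]}(ξ^μ)` of `N` points `ξ` at `x`. -/
noncomputable def localDisc {N d : ℕ} (ξ : Fin N → Fin d → ℝ) (x : Fin d → ℝ) : ℝ :=
  ∏ j, x j - (1 / (N : ℝ)) * ∑ μ : Fin N, (Set.Icc (0 : Fin d → ℝ) x).indicator (fun _ => (1 : ℝ)) (ξ μ)

/-- `D(ξ,N,d)_∞`: the `L_∞` norm of the local discrepancy over `[0,1]^d`. -/
noncomputable def starDisc {N d : ℕ} (ξ : Fin N → Fin d → ℝ) : ENNReal :=
  eLpNorm (localDisc ξ) ⊤ (volume.restrict (Set.Icc (0 : Fin d → ℝ) 1))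

/-- The `i`-th digit in base `b` (`i = 0` is the first digit after the point) of `y ∈ [0,1)`. -/
noncomputable def dg (b : ℕ) [NeZero b] (i : ℕ) (y : ℝ) : Fin b :=
  Fin.ofNat b ⌊(b : ℝ) ^ (i + 1) * y⌋₊

open Classical in
/-- `(t,m,d)`-nets in base `b`: every elementary interval `∏ [v_i b^(-k_i), (v_i+1) b^(-k_i))` of
volume `b^(t-m)` contains exactly `b^t` of the `b^m` points. -/
def IsNet (b t m : ℕ) {d : ℕ} (ξ : Fin (b ^ m) → Fin d → ℝ) : Prop :=
  ∀ k v : Fin d → ℕ, ∑ i, k i + t = m → (∀ i, v i < b ^ k i) →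
    (univ.filter (fun μ => ∀ i, (v i : ℝ) / (b:ℝ) ^ k i ≤ ξ μ i ∧
      ξ μ i < ((v i : ℝ) + 1) / (b:ℝ) ^ k i)).card = b ^ t

/-- Nested scramblings of the first `m` digits in `s` coordinates: a permutation of the digits
`{0, …, b-1}` for each coordinate, each place `i < m` and each string of `i` preceding digits. -/
abbrev Scr (b m s : ℕ) : Type :=
  Fin s → (i : Fin m) → (Fin (i : ℕ) → Fin b) → Equiv.Perm (Fin b)

/-- `ζ` is obtained from `ξ` by the scrambling `π`: the `i`-th digit (`i < m`) of each coordinate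
is permuted by the permutation of `π` that belongs to the preceding digits. The digits of `ζ` after
the first `m` are arbitrary. -/
def IsScr {b m d : ℕ} [NeZero b] (π : Scr b m d) (ξ ζ : Fin (b ^ m) → Fin d → ℝ) : Prop :=
  ∀ μ j, 0 ≤ ζ μ j ∧ ζ μ j < 1 ∧ ∀ i : Fin m,
    dg b i (ζ μ j) = π j i (fun i' => dg b i' (ξ μ j)) (dg b i (ξ μ j))

/-- **Theorem.** The star discrepancy of Owen scrambled nets: the proportion of the scramblings with
a smaller star discrepancy is at most `exp(-b^(c' m))`. -/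
theorem result (d : ℕ) (hd : 2 ≤ d) :
    ∃ c c' : ℝ, 0 < c ∧ 0 < c' ∧ ∀ (b : ℕ) [NeZero b] (t m : ℕ)
      (ξ : Fin (b ^ m) → Fin d → ℝ), 2 ≤ b → (∀ μ j, 0 ≤ ξ μ j ∧ ξ μ j < 1) → IsNet b t m ξ →
      (Nat.card {π : Scr b m d // ∃ ζ : Fin (b ^ m) → Fin d → ℝ, IsScr π ξ ζ ∧
        starDisc ζ < ENNReal.ofReal (c * ((m : ℝ) / ((t : ℝ) + 1)) ^ (d - 1) / (b : ℝ) ^ m)} : ℝ) ≤
        Real.exp (-(b : ℝ) ^ (c' * m)) * (Nat.card (Scr b m d) : ℝ) := by
  obtain ⟨D, rfl⟩ := Nat.exists_eq_add_of_le' hd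
  exact Pool.Agent.Q71.OS.nets Pool.Agent.Q71.DN.star_thm Pool.Agent.Q71.OS.netScr_thm
    Pool.Agent.Q71.OS.scr_thm (D + 1) (by omega)

end Pool.Agent.Results.MP_173de9_an.ScrambledNets
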